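import Pool.Agent.H49.G.R_seed8.H373R2.T7.Fund
import Pool.Agent.H49.G.R_seed8.Y842.JC.Base
import Pool.Agent.H49.G.R_seed8.Helper256.KM.Mertens

set_option autoImplicit false

/-! Upper bounds for sums of products of the von Mangoldt function. -/

namespace Pool.Agent.Y842.JC
open Finset
open Pool.Agent.H373R2.T7 (pz mem_pz Vz nuB PerB sys_fund Vz_pos Vz_le_one)
open Pool.Agent.TH891.SG (Gm one_le_Gm)

lemma Vz_up : ∃ C : ℝ, 0 < C ∧ ∀ y : ℕ, 3 ≤ y → Vz y ≤ C / Real.log y := by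
  obtain ⟨C0, hC0⟩ := Pool.Agent.Helper256.KM.mertens_inv
  refine ⟨Real.exp C0, Real.exp_pos _, fun y hy => ?_⟩
  have hy3 : (3 : ℝ) ≤ y := by exact_mod_cast hy
  have hl : 0 < Real.log y := Real.log_pos (by linarith)
  have h1 : Vz y ≤ Real.exp (-∑ p ∈ pz y, (1 : ℝ) / p) := by
    unfold Vz
    rw [← sum_neg_distrib, Real.exp_sum]
    apply prod_le_prod
    · intro p hp
      have hp2 : (1 : ℝ) ≤ p := by exact_mod_cast (mem_pz.1 hp).2.one_lt.le
      have : 1 / (p : ℝ) ≤ 1 := by rw [div_le_one (by linarith)]; exact hp2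
      linarith
    · intro p _
      have := Real.add_one_le_exp (-(1 / (p : ℝ)))
      linarith
  have h2 := (abs_le.1 (hC0 y hy)).1
  refine h1.trans ?_
  rw [le_div_iff₀ hl]
  have h3 : Real.exp (-∑ p ∈ pz y, (1 : ℝ) / p) * Real.log y =
      Real.exp (-∑ p ∈ pz y, (1 : ℝ) / p + Real.log (Real.log y)) := by
    rw [Real.exp_add, Real.exp_log hl]
  rw [h3]
  apply Real.exp_le_exp.2
  unfold pz
  linarith

open Classical in
/-- the residues removed modulo `p` -/
noncomputable def rem (x : ℤ) (T : Finset ℤ) (p : ℕ) : Finset ℕ :=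
  (range p).filter (fun r : ℕ => ∃ t ∈ T, (p : ℤ) ∣ x + r + t)

lemma rem_insert (x : ℤ) (T : Finset ℤ) (t0 : ℤ) (p : ℕ) (hp : p.Prime) :
    ∃ r0 : ℕ, rem x (insert t0 T) p = insert r0 (rem x T p) ∧ r0 < p ∧ (p : ℤ) ∣ x + r0 + t0 := by
  classical
  have hp0 : (0 : ℤ) < p := by exact_mod_cast hp.pos
  set r0 : ℕ := ((-x - t0) % (p : ℤ)).toNat with hr0
  have h1 : (r0 : ℤ) = (-x - t0) % (p : ℤ) := Int.toNat_of_nonneg (Int.emod_nonneg _ hp0.ne')
  have h2 : r0 < p := by
    have := Int.emod_lt_of_pos (-x - t0) hp0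
    omega
  have h3 : (p : ℤ) ∣ x + r0 + t0 := by
    rw [h1]
    have h5 : x + (-x - t0) % (p : ℤ) + t0 = -((-x - t0) - (-x - t0) % (p : ℤ)) := by ring
    rw [h5, dvd_neg]
    exact Int.dvd_self_sub_emod
  refine ⟨r0, ?_, h2, h3⟩
  ext r
  unfold rem
  simp only [mem_filter, mem_range, mem_insert, exists_eq_or_imp]
  constructor
  · rintro ⟨hr, h | h⟩
    · left
      have h6 : (p : ℤ) ∣ (r : ℤ) - r0 := by
        have := dvd_sub h h3
        have e : x + (r : ℤ) + t0 - (x + r0 + t0) = (r : ℤ) - r0 := by ring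
        rwa [e] at this
      have h7 := Int.eq_zero_of_abs_lt_dvd h6 (by rw [abs_lt]; omega)
      omega
    · exact Or.inr ⟨hr, h⟩
  · rintro (h | ⟨h, h'⟩)
    · subst h
      exact ⟨h2, Or.inl h3⟩
    · exact ⟨h, Or.inr h'⟩

lemma loc_le (x : ℤ) (p : ℕ) (hp : p.Prime) (T : Finset ℤ) :
    (1 - 1 / (p : ℝ)) ^ (rem x T p).card ≤
      (1 - 1 / (p : ℝ)) ^ T.card * ∏ q ∈ T.offDiag, (if (p : ℤ) ∣ q.1 - q.2 then 1 + 2 / (p : ℝ) else 1) := by
  classical
  have hp2 : (2 : ℝ) ≤ p := by exact_mod_cast hp.two_le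
  have ha0 : 0 ≤ 1 - 1 / (p : ℝ) := by
    have : 1 / (p : ℝ) ≤ 1 := by rw [div_le_one (by linarith)]; linarith
    linarith
  have ha1 : 1 ≤ (1 - 1 / (p : ℝ)) * (1 + 2 / p) := by
    have h1 : (1 - 1 / (p : ℝ)) * (1 + 2 / p) = 1 + (p - 2) / p ^ 2 := by
      field_simp
      ring
    rw [h1]
    have : 0 ≤ ((p : ℝ) - 2) / p ^ 2 := div_nonneg (by linarith) (by positivity)
    linarith
  set g : ℤ × ℤ → ℝ := fun q => if (p : ℤ) ∣ q.1 - q.2 then 1 + 2 / (p : ℝ) else 1 with hg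
  have hg1 : ∀ q, 1 ≤ g q := by
    intro q
    rw [hg]
    simp only
    split_ifs
    · have : 0 < 2 / (p : ℝ) := by positivity
      linarith
    · exact le_rfl
  induction T using Finset.induction_on with
  | empty =>
    have : rem x ∅ p = ∅ := by
      unfold rem
      apply filter_false_of_mem
      rintro r _ ⟨t, ht, _⟩
      simp at ht
    rw [this]
    simp
  | insert t0 T ht0 ih =>
    obtain ⟨r0, h1, h2, h3⟩ := rem_insert x T t0 p hp
    have hsub : T.offDiag ⊆ (insert t0 T).offDiag := offDiag_mono (subset_insert _ _)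
    have hmono : ∏ q ∈ T.offDiag, g q ≤ ∏ q ∈ (insert t0 T).offDiag, g q :=
      prod_mono_one hsub hg1
    rw [h1, card_insert_of_notMem ht0]
    by_cases hr : r0 ∈ rem x T p
    · rw [insert_eq_of_mem hr]
      obtain ⟨t, ht, htp⟩ : ∃ t ∈ T, (p : ℤ) ∣ x + r0 + t := by
        unfold rem at hr
        exact (mem_filter.1 hr).2
      have hd : (p : ℤ) ∣ t0 - t := by
        have := dvd_sub h3 htp
        have e : x + (r0 : ℤ) + t0 - (x + r0 + t) = t0 - t := by ring
        rwa [e] at this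
      have hne : t0 ≠ t := fun h => ht0 (h ▸ ht)
      have hmem : (t0, t) ∈ (insert t0 T).offDiag := by
        rw [mem_offDiag]
        exact ⟨mem_insert_self _ _, mem_insert_of_mem ht, hne⟩
      have hnot : (t0, t) ∉ T.offDiag := by
        rw [mem_offDiag]
        rintro ⟨h, _⟩
        exact ht0 h
      have h4 : (1 + 2 / (p : ℝ)) * ∏ q ∈ T.offDiag, g q ≤ ∏ q ∈ (insert t0 T).offDiag, g q := by
        have h5 : g (t0, t) = 1 + 2 / (p : ℝ) := by
          rw [hg]
          simp only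
          rw [if_pos hd]
        rw [← h5, ← prod_insert hnot]
        exact prod_mono_one (insert_subset hmem hsub) hg1
      have hP0 : 0 ≤ ∏ q ∈ T.offDiag, g q := prod_nonneg fun q _ => zero_le_one.trans (hg1 q)
      calc (1 - 1 / (p : ℝ)) ^ (rem x T p).card ≤ (1 - 1 / (p : ℝ)) ^ T.card * ∏ q ∈ T.offDiag, g q := ih
        _ ≤ ((1 - 1 / (p : ℝ)) * (1 + 2 / p)) * ((1 - 1 / (p : ℝ)) ^ T.card * ∏ q ∈ T.offDiag, g q) :=
            le_mul_of_one_le_left (by positivity) ha1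
        _ = (1 - 1 / (p : ℝ)) ^ (T.card + 1) * ((1 + 2 / (p : ℝ)) * ∏ q ∈ T.offDiag, g q) := by ring
        _ ≤ _ := mul_le_mul_of_nonneg_left h4 (by positivity)
    · rw [card_insert_of_notMem hr, pow_succ, pow_succ, mul_right_comm]
      apply mul_le_mul_of_nonneg_right _ ha0
      exact ih.trans (mul_le_mul_of_nonneg_left hmono (by positivity))

lemma Gm_ge (y : ℕ) (d : ℤ) (hd : d ≠ 0) :
    ∏ p ∈ pz y, (if (p : ℤ) ∣ d then 1 + 2 / (p : ℝ) else 1) ≤ Gm 2 d.natAbs := by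
  classical
  rw [← prod_filter]
  unfold Gm
  calc ∏ p ∈ (pz y).filter (fun p : ℕ => (p : ℤ) ∣ d), (1 + 2 / (p : ℝ))
      ≤ ∏ p ∈ (pz y).filter (fun p : ℕ => (p : ℤ) ∣ d), (1 + 2 * ((p : ℝ) ^ (1 / 4 : ℝ))⁻¹) := by
        apply prod_le_prod
        · intro p _; positivity
        · intro p hp
          have hp1 : (1 : ℝ) ≤ p := by exact_mod_cast (mem_pz.1 (mem_filter.1 hp).1).2.one_lt.le
          rw [div_eq_mul_inv]
          have h1 : (p : ℝ)⁻¹ ≤ ((p : ℝ) ^ (1 / 4 : ℝ))⁻¹ := by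
            apply inv_anti₀ (by positivity)
            calc (p : ℝ) ^ (1 / 4 : ℝ) ≤ (p : ℝ) ^ (1 : ℝ) := Real.rpow_le_rpow_of_exponent_le hp1 (by norm_num)
              _ = p := Real.rpow_one _
          linarith
    _ ≤ ∏ p ∈ d.natAbs.primeFactors, (1 + 2 * ((p : ℝ) ^ (1 / 4 : ℝ))⁻¹) := by
        apply prod_mono_one
        · intro p hp
          rw [mem_filter, mem_pz] at hp
          rw [Nat.mem_primeFactors]
          exact ⟨hp.1.2, Int.natCast_dvd.1 hp.2, Int.natAbs_ne_zero.2 hd⟩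
        · intro p
          have := Pool.Agent.TH891.SG.quarter_inv_nonneg p
          linarith

lemma dens_le (x : ℤ) (T : Finset ℤ) (y : ℕ) :
    ∏ p ∈ pz y, (1 - ((rem x T p).card : ℝ) / p) ≤ Vz y ^ T.card * PG T := by
  classical
  have h1 : ∀ p ∈ pz y, 1 - ((rem x T p).card : ℝ) / p ≤
      (1 - 1 / (p : ℝ)) ^ T.card * ∏ q ∈ T.offDiag, (if (p : ℤ) ∣ q.1 - q.2 then 1 + 2 / (p : ℝ) else 1) := by
    intro p hp
    have hpp := (mem_pz.1 hp).2
    have hp2 : (2 : ℝ) ≤ p := by exact_mod_cast hpp.two_le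
    refine le_trans ?_ (loc_le x p hpp T)
    have h2 := one_add_mul_le_pow (a := -(1 / (p : ℝ))) (by
      have : 1 / (p : ℝ) ≤ 1 := by rw [div_le_one (by linarith)]; linarith
      linarith) (rem x T p).card
    have e1 : 1 + ((rem x T p).card : ℝ) * -(1 / (p : ℝ)) = 1 - ((rem x T p).card : ℝ) / p := by ring
    rw [e1] at h2
    have e2 : (1 + -(1 / (p : ℝ))) = 1 - 1 / (p : ℝ) := by ring
    rwa [e2] at h2
  have h0 : ∀ p ∈ pz y, 0 ≤ 1 - ((rem x T p).card : ℝ) / p := by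
    intro p hp
    have hp0 : (0 : ℝ) < p := by exact_mod_cast (mem_pz.1 hp).2.pos
    have h2 : (rem x T p).card ≤ p := by
      unfold rem
      exact (card_filter_le _ _).trans (by simp)
    have h3 : ((rem x T p).card : ℝ) / p ≤ 1 := by
      rw [div_le_one hp0]
      exact_mod_cast h2
    linarith
  refine (prod_le_prod h0 h1).trans ?_
  rw [prod_mul_distrib, prod_pow]
  apply mul_le_mul_of_nonneg_left _ (pow_nonneg (Vz_pos y).le _)
  rw [prod_comm]
  unfold PG
  apply prod_le_prod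
  · intro q _
    apply prod_nonneg
    intro p _
    split_ifs <;> positivity
  · intro q hq
    rw [mem_offDiag] at hq
    exact Gm_ge y _ (sub_ne_zero.2 hq.2.2)

open Classical in
lemma sieve_count (c : ℕ) (hc : 1 ≤ c) : ∃ K x0 : ℕ, 1 ≤ K ∧ ∀ Y y : ℕ, x0 ≤ y → y ^ K ≤ Y → ∀ x : ℤ,
    ∀ T : Finset ℤ, T.card ≤ c →
    (((Icc 1 Y).filter (fun n : ℕ => ∀ p ∈ pz y, ¬ ∃ t ∈ T, (p : ℤ) ∣ x + n + t)).card : ℝ) ≤
      2 * (Y * (Vz y ^ T.card * PG T)) + √(Y : ℝ) := by
  obtain ⟨K, x0, hK, h⟩ := sys_fund c hc 1 one_pos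
  refine ⟨K, x0, hK, fun Y y hy hyY x T hT => ?_⟩
  have hper : PerB (fun p n => ∃ t ∈ T, (p : ℤ) ∣ x + n + t) c := by
    constructor
    · intro p n
      apply exists_congr
      intro t
      apply and_congr_right
      intro _
      have h1 : (n : ℤ) = ((n % p : ℕ) : ℤ) + (p : ℤ) * ((n / p : ℕ) : ℤ) := by
        exact_mod_cast (Nat.mod_add_div n p).symm
      have e : x + (n : ℤ) + t = (x + ((n % p : ℕ) : ℤ) + t) + (p : ℤ) * ((n / p : ℕ) : ℤ) := by
        linarith [h1]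
      rw [e]
      exact Int.dvd_add_left (Dvd.intro _ rfl)
    · intro p hp
      refine le_trans ?_ hT
      have h1 : nuB (fun p n => ∃ t ∈ T, (p : ℤ) ∣ x + n + t) p = (rem x T p).card := by
        unfold nuB rem
        apply congrArg
        ext r
        simp only [mem_filter]
      rw [h1]
      clear h1
      induction T using Finset.induction_on with
      | empty =>
        have : rem x ∅ p = ∅ := by
          unfold rem
          apply filter_false_of_mem
          rintro r _ ⟨t, ht, _⟩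
          simp at ht
        rw [this]
        simp
      | insert t0 T ht0 ih =>
        obtain ⟨r0, h1, _, _⟩ := rem_insert x T t0 p hp
        rw [h1, card_insert_of_notMem ht0]
        rw [card_insert_of_notMem ht0] at hT
        have := ih (by omega)
        have := card_insert_le r0 (rem x T p)
        omega
  have h1 := (abs_le.1 (h Y y hy hyY _ hper Y)).2
  have hnu : ∀ p, nuB (fun p n => ∃ t ∈ T, (p : ℤ) ∣ x + n + t) p = (rem x T p).card := by
    intro p
    unfold nuB rem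
    apply congrArg
    ext r
    simp only [mem_filter]
  have h2 : ∏ p ∈ pz y, (1 - (nuB (fun p n => ∃ t ∈ T, (p : ℤ) ∣ x + n + t) p : ℝ) / p) ≤ Vz y ^ T.card * PG T := by
    simp only [hnu]
    exact dens_le x T y
  have h3 := mul_le_mul_of_nonneg_left h2 (Nat.cast_nonneg Y : (0 : ℝ) ≤ Y)
  refine le_trans (le_of_eq ?_) ((sub_le_iff_le_add.1 h1).trans ?_)
  · apply congrArg
    apply congrArg
    ext n
    simp only [mem_filter]
  · linarith

end Pool.Agent.Y842.JC
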