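import Pool.Agent.H49.G.R_seed8.Y842.JC.Sieve

set_option autoImplicit false

/-! Upper bounds for sums of products of the von Mangoldt function: the theorem. -/

namespace Pool.Agent.Y842.JC
open Finset
open Pool.Agent.H373R2.T7 (pz mem_pz Vz nuB PerB sys_fund Vz_pos Vz_le_one)
open Pool.Agent.TH891.SG (Gm one_le_Gm)

lemma log_small (k : ℕ) (A : ℝ) : ∃ N0 : ℕ, ∀ N : ℕ, N0 ≤ N →
    A * Real.log (6 * N) ^ k ≤ (N : ℝ) ^ (1 / 4 : ℝ) := by
  have h1 := (isLittleO_log_rpow_rpow_atTop (k : ℝ) (s := 1 / 4) (by norm_num)).def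
    (show (0 : ℝ) < 1 / ((|A| + 1) * 2 ^ k) by positivity)
  obtain ⟨x0, hx0⟩ := Filter.eventually_atTop.1 h1
  obtain ⟨N0, hN0⟩ := exists_nat_ge x0
  refine ⟨N0 + 6, fun N hN => ?_⟩
  have hN6 : (6 : ℝ) ≤ N := by exact_mod_cast (by omega : 6 ≤ N)
  have h2 := hx0 N (hN0.trans (by exact_mod_cast (by omega : N0 ≤ N)))
  have hl0 : 0 ≤ Real.log N := Real.log_nonneg (by linarith)
  rw [Real.rpow_natCast, Real.norm_of_nonneg (by positivity), Real.norm_of_nonneg (by positivity)] at h2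
  have h3 : Real.log (6 * N) ≤ 2 * Real.log N := by
    rw [Real.log_mul (by norm_num) (by linarith)]
    have := Real.log_le_log (by norm_num) hN6
    linarith
  have h4 : 0 ≤ Real.log (6 * N) := Real.log_nonneg (by linarith)
  calc A * Real.log (6 * N) ^ k ≤ (|A| + 1) * (2 * Real.log N) ^ k := by
        apply mul_le_mul _ (pow_le_pow_left₀ h4 h3 k) (by positivity) (by positivity)
        have := le_abs_self A
        linarith
    _ = ((|A| + 1) * 2 ^ k) * Real.log N ^ k := by rw [mul_pow]; ring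
    _ ≤ ((|A| + 1) * 2 ^ k) * (1 / ((|A| + 1) * 2 ^ k) * (N : ℝ) ^ (1 / 4 : ℝ)) :=
        mul_le_mul_of_nonneg_left h2 (by positivity)
    _ = (N : ℝ) ^ (1 / 4 : ℝ) := by field_simp

lemma Lz_le {m : ℤ} {X : ℝ} (hX : 1 ≤ X) (h : (m : ℝ) ≤ X) : Lz m ≤ Real.log X := by
  unfold Lz
  rcases Nat.eq_zero_or_pos m.toNat with h0 | h0
  · rw [h0, ArithmeticFunction.map_zero]
    exact Real.log_nonneg hX
  · refine ArithmeticFunction.vonMangoldt_le_log.trans ?_
    apply Real.log_le_log (by exact_mod_cast h0)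
    have h2 : ((m.toNat : ℕ) : ℤ) = m := Int.toNat_of_nonneg (by omega)
    have h3 : ((m.toNat : ℕ) : ℝ) = m := by exact_mod_cast h2
    rw [h3]
    exact h

open Classical in
/-- the part of the von Mangoldt function not supported on the primes `> y` -/
noncomputable def bad (y : ℕ) (m : ℤ) : ℝ := if m.toNat.Prime ∧ y < m.toNat then 0 else Lz m

lemma bad_nonneg (y : ℕ) (m : ℤ) : 0 ≤ bad y m := by
  unfold bad
  split_ifs
  · exact le_rfl
  · exact Lz_nonneg m

lemma bad_sum (y X : ℕ) (hX : 1 ≤ X) (S : Finset ℤ) (t : ℤ) (hS : ∀ n ∈ S, n + t ≤ X) :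
    ∑ n ∈ S, bad y (n + t) ≤ 2 * √(X : ℝ) * Real.log X + 2 * y := by
  classical
  have h1 : ∑ n ∈ S, bad y (n + t) = ∑ n ∈ S.filter (fun n => 0 < n + t), bad y (n + t) := by
    rw [sum_filter]
    apply sum_congr rfl
    intro n _
    split_ifs with h
    · rfl
    · have h0 : (n + t).toNat = 0 := by omega
      unfold bad Lz
      rw [h0, if_neg (by simp), ArithmeticFunction.map_zero]
  have h2 : ∑ n ∈ S.filter (fun n => 0 < n + t), bad y (n + t) ≤ ∑ m ∈ Ioc 0 X, bad y (m : ℤ) := by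
    have h5 : ∑ n ∈ S.filter (fun n => 0 < n + t), bad y (n + t) =
        ∑ n ∈ S.filter (fun n => 0 < n + t), bad y (((n + t).toNat : ℕ) : ℤ) := by
      apply sum_congr rfl
      intro n hn
      rw [mem_filter] at hn
      rw [Int.toNat_of_nonneg hn.2.le]
    rw [h5, ← sum_image (s := S.filter (fun n => 0 < n + t)) (g := fun n => (n + t).toNat) (f := fun m : ℕ => bad y (m : ℤ))]
    · apply sum_le_sum_of_subset_of_nonneg
      · intro m hm
        obtain ⟨n, hn, rfl⟩ := mem_image.1 hm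
        rw [mem_filter] at hn
        have := hS n hn.1
        rw [mem_Ioc]
        omega
      · intro m _ _
        exact bad_nonneg _ _
    · intro n hn n' hn' h
      rw [mem_coe, mem_filter] at hn hn'
      simp only at h
      omega
  rw [h1]
  refine h2.trans ?_
  have h3 : ∀ m ∈ Ioc 0 X, bad y (m : ℤ) ≤ (if ¬ m.Prime then ArithmeticFunction.vonMangoldt m else 0) +
      (if m ∈ Ioc 0 y then (if m.Prime then Real.log m else 0) else 0) := by
    intro m hm
    rw [mem_Ioc] at hm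
    unfold bad Lz
    rw [Int.toNat_natCast]
    by_cases hp : m.Prime
    · by_cases hy : y < m
      · rw [if_pos ⟨hp, hy⟩, if_neg (not_not.2 hp), zero_add]
        split_ifs
        · exact Real.log_nonneg (by exact_mod_cast hp.one_lt.le)
        · exact le_rfl
      · rw [if_neg (by tauto), if_neg (not_not.2 hp), if_pos (by rw [mem_Ioc]; omega), if_pos hp, zero_add,
          ArithmeticFunction.vonMangoldt_apply_prime hp]
    · rw [if_neg (by tauto), if_pos hp]
      have : (0 : ℝ) ≤ (if m ∈ Ioc 0 y then (if m.Prime then Real.log m else 0) else 0) := by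
        rw [if_neg hp]
        split_ifs <;> exact le_rfl
      linarith
  refine (sum_le_sum h3).trans ?_
  rw [sum_add_distrib]
  apply add_le_add
  · rw [← sum_filter]
    have h4 := Chebyshev.psi_sub_theta_eq_sum_not_prime (X : ℝ)
    rw [Nat.floor_natCast] at h4
    rw [← h4]
    exact Chebyshev.psi_sub_theta_le (by exact_mod_cast hX)
  · have h5 : ∑ m ∈ Ioc 0 X, (if m ∈ Ioc 0 y then (if m.Prime then Real.log m else 0) else 0 : ℝ) ≤
        ∑ m ∈ Ioc 0 y, (if m.Prime then Real.log m else 0 : ℝ) := by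
      rw [← sum_filter]
      apply sum_le_sum_of_subset_of_nonneg
      · intro m hm
        exact (mem_filter.1 hm).2
      · intro m _ _
        split_ifs with hp
        · exact Real.log_nonneg (by exact_mod_cast hp.one_lt.le)
        · exact le_rfl
    refine h5.trans ?_
    rw [← sum_filter]
    have h6 : ∑ p ∈ (Ioc 0 y).filter Nat.Prime, Real.log p = Chebyshev.theta y := by
      unfold Chebyshev.theta
      rw [Nat.floor_natCast]
    rw [h6]
    have h7 := Chebyshev.theta_le_log4_mul_x (x := (y : ℝ)) (Nat.cast_nonneg _)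
    have h8 : Real.log 4 ≤ 2 := by
      have h9 : Real.log 4 = 2 * Real.log 2 := by
        rw [show (4 : ℝ) = 2 ^ 2 by norm_num, Real.log_pow]
        push_cast
        ring
      have := Real.log_two_lt_d9
      linarith
    exact h7.trans (mul_le_mul_of_nonneg_right h8 (Nat.cast_nonneg _))

theorem sieve (c : ℕ) (hc : 1 ≤ c) : ∃ C : ℝ, 1 ≤ C ∧ ∃ N0 : ℕ, ∀ N : ℕ, N0 ≤ N → ∀ Y : ℕ, N ^ 3 ≤ Y ^ 4 → Y ≤ N →
    ∀ x : ℤ, |x| ≤ N → ∀ T : Finset ℤ, T.card ≤ c → (∀ t ∈ T, |t| ≤ 4 * N) →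
    ∑ n ∈ Ioc x (x + Y), ∏ t ∈ T, Lz (n + t) ≤ C * Y * PG T := by
  classical
  obtain ⟨K, x0, hK, hcount⟩ := sieve_count c hc
  obtain ⟨CV, hCV, hV⟩ := Vz_up
  obtain ⟨N1, hN1⟩ := log_small (c + 1) (20 * (c + 1))
  set A : ℝ := max 1 (CV * (8 * (K + 1))) with hA
  have hA1 : 1 ≤ A := le_max_left _ _
  obtain ⟨N2, hN2⟩ := exists_nat_ge (Real.exp (4 * ((K : ℝ) + 1) * Real.log (2 * (x0 + 3)) ) + 1)
  refine ⟨2 * A ^ c + 1, by have := one_le_pow₀ hA1 (n := c); linarith, N1 + N2 + 6, fun N hN Y hYN hYN2 x hx T hT ht => ?_⟩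
  have hN6 : (6 : ℝ) ≤ N := by exact_mod_cast (by omega : 6 ≤ N)
  have hN0 : (0 : ℝ) < N := by linarith
  have hYr : (N : ℝ) ^ (3 / 4 : ℝ) ≤ Y := by
    have h1 : ((N : ℝ)) ^ 3 ≤ (Y : ℝ) ^ 4 := by exact_mod_cast hYN
    have h2 : ((N : ℝ) ^ (3 / 4 : ℝ)) ^ 4 ≤ (Y : ℝ) ^ 4 := by
      rw [← Real.rpow_natCast, ← Real.rpow_mul hN0.le]
      norm_num
      exact h1
    exact le_of_pow_le_pow_left₀ (by norm_num) (Nat.cast_nonneg _) h2
  have hY0 : (0 : ℝ) < Y := lt_of_lt_of_le (by positivity) hYr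
  have hY1 : 1 ≤ Y := by exact_mod_cast hY0
  set W : ℝ := Real.log (6 * N) with hW
  have hlogN : 1 ≤ Real.log N := by
    rw [Real.le_log_iff_exp_le hN0]
    have := Real.exp_one_lt_d9
    linarith
  have hW1 : 1 ≤ W := by
    refine hlogN.trans (Real.log_le_log hN0 (by linarith))
  have hW2 : W ≤ 2 * Real.log N := by
    rw [hW, Real.log_mul (by norm_num) (by linarith)]
    have := Real.log_le_log (by norm_num) hN6
    linarith
  -- the sifting level
  set κ : ℝ := 1 / ((K : ℝ) + 1) with hκ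
  have hκ0 : 0 < κ := by positivity
  set y : ℕ := ⌊(Y : ℝ) ^ κ⌋₊ with hy
  have hyle : (y : ℝ) ≤ (Y : ℝ) ^ κ := Nat.floor_le (by positivity)
  have hypow : ((y : ℝ)) ^ (K + 1) ≤ Y := by
    calc ((y : ℝ)) ^ (K + 1) ≤ ((Y : ℝ) ^ κ) ^ (K + 1) := pow_le_pow_left₀ (Nat.cast_nonneg _) hyle _
      _ = Y := by
          rw [← Real.rpow_natCast, ← Real.rpow_mul hY0.le, hκ]
          push_cast
          rw [one_div, inv_mul_cancel₀ (by positivity), Real.rpow_one]
  have hlogy : Real.log N / (4 * (K + 1)) ≤ Real.log y ∧ x0 + 3 ≤ y := by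
    have e1 : 4 * ((K : ℝ) + 1) * Real.log (2 * (x0 + 3)) ≤ Real.log N := by
      rw [Real.le_log_iff_exp_le hN0]
      have : (N2 : ℝ) ≤ N := by exact_mod_cast (by omega : N2 ≤ N)
      linarith
    have e2 : Real.log N * (3 / 4) * κ ≤ Real.log ((Y : ℝ) ^ κ) := by
      rw [Real.log_rpow hY0, mul_comm κ]
      apply mul_le_mul_of_nonneg_right _ hκ0.le
      rw [mul_comm, ← Real.log_rpow hN0]
      exact Real.log_le_log (by positivity) hYr
    have e3 : Real.log (2 * (x0 + 3)) ≤ Real.log N * κ / 4 := by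
      rw [hκ, le_div_iff₀ (by norm_num), mul_one_div, le_div_iff₀ (by positivity)]
      linarith
    have e4 : (2 * ((x0 : ℝ) + 3)) ^ 2 ≤ (Y : ℝ) ^ κ := by
      rw [← Real.log_le_log_iff (by positivity) (by positivity), Real.log_pow]
      push_cast
      have : 0 ≤ Real.log N * κ := by positivity
      linarith
    have hx3 : (3 : ℝ) ≤ x0 + 3 := by
      have : (0 : ℝ) ≤ x0 := Nat.cast_nonneg _
      linarith
    have e5 : (Y : ℝ) ^ κ / 2 ≤ y := by
      have h1 : (Y : ℝ) ^ κ < y + 1 := Nat.lt_floor_add_one _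
      have h2 : (2 : ℝ) ≤ (Y : ℝ) ^ κ := by nlinarith
      linarith
    constructor
    · have h1 : Real.log ((Y : ℝ) ^ κ) - Real.log 2 ≤ Real.log y := by
        rw [← Real.log_div (by positivity) (by norm_num)]
        exact Real.log_le_log (by positivity) e5
      have h2 : Real.log 2 ≤ Real.log (2 * (x0 + 3)) := Real.log_le_log (by norm_num) (by linarith)
      have h3 : Real.log N / (4 * (K + 1)) = Real.log N * κ / 4 := by
        rw [hκ]
        field_simp
      rw [h3]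
      have : 0 ≤ Real.log N * κ := by positivity
      linarith
    · have h1 : ((x0 : ℝ) + 3) ≤ y := by nlinarith
      exact_mod_cast h1
  have hy3 : 3 ≤ y := by omega
  have hy1 : (1 : ℝ) ≤ y := by exact_mod_cast (by omega : 1 ≤ y)
  have hyY : y ^ K ≤ Y := by
    have h1 : ((y : ℝ)) ^ K ≤ (y : ℝ) ^ (K + 1) := pow_le_pow_right₀ hy1 (by omega)
    exact_mod_cast h1.trans hypow
  have hysq : (y : ℝ) ≤ √(N : ℝ) := by
    apply Real.le_sqrt_of_sq_le
    calc (y : ℝ) ^ 2 ≤ (y : ℝ) ^ (K + 1) := pow_le_pow_right₀ hy1 (by omega)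
      _ ≤ Y := hypow
      _ ≤ N := by exact_mod_cast hYN2
  have hYsq : √(Y : ℝ) ≤ √(N : ℝ) := Real.sqrt_le_sqrt (by exact_mod_cast hYN2)
  have hly0 : 0 < Real.log y := Real.log_pos (by exact_mod_cast (by omega : 1 < y))
  have hWV : W * Vz y ≤ A := by
    have h1 := hV y hy3
    have h2 : W * Vz y ≤ (2 * Real.log N) * (CV / Real.log y) :=
      mul_le_mul hW2 h1 (Vz_pos y).le (by linarith)
    have h3 : (2 * Real.log N) * (CV / Real.log y) ≤ CV * (8 * (K + 1)) := by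
      rw [← mul_div_assoc, div_le_iff₀ hly0]
      have h4 := hlogy.1
      rw [div_le_iff₀ (by positivity)] at h4
      calc 2 * Real.log N * CV ≤ 2 * (Real.log y * (4 * (K + 1))) * CV := by
            apply mul_le_mul_of_nonneg_right _ hCV.le
            linarith
        _ = _ := by ring
    exact (h2.trans h3).trans (le_max_right _ _)
  -- the sum over the sifted integers
  set k := T.card with hk
  set G : Finset ℤ := (Ioc x (x + Y)).filter (fun n => ∀ p ∈ pz y, ¬ ∃ t ∈ T, (p : ℤ) ∣ n + t) with hG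
  have hx1 := abs_le.1 hx
  have hYN' : (Y : ℤ) ≤ N := by exact_mod_cast hYN2
  have hn6 : ∀ n ∈ Ioc x (x + Y), ∀ t ∈ T, n + t ≤ ((6 * N : ℕ) : ℤ) := by
    intro n hn t ht'
    rw [mem_Ioc] at hn
    have := (abs_le.1 (ht t ht')).2
    push_cast
    omega
  have hLW : ∀ n ∈ Ioc x (x + Y), ∀ t ∈ T, Lz (n + t) ≤ W := by
    intro n hn t ht'
    apply Lz_le (by linarith)
    have := hn6 n hn t ht'
    exact_mod_cast this
  have hW0 : 0 ≤ W := by linarith
  have hprod : ∀ n ∈ Ioc x (x + Y), ∀ T' ⊆ T, ∏ t ∈ T', Lz (n + t) ≤ W ^ T'.card := by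
    intro n hn T' hT'
    rw [← prod_const]
    exact prod_le_prod (fun t _ => Lz_nonneg _) (fun t ht' => hLW n hn t (hT' ht'))
  have hcardG : (G.card : ℝ) ≤ 2 * (Y * (Vz y ^ k * PG T)) + √(Y : ℝ) := by
    refine le_trans ?_ (hcount Y y (by omega) hyY x T hT)
    apply Nat.cast_le.2
    apply card_le_card_of_injOn (fun n => (n - x).toNat)
    · intro n hn
      rw [mem_coe, hG, mem_filter, mem_Ioc] at hn
      rw [mem_coe, mem_filter, mem_Icc]
      refine ⟨by simp only; omega, fun p hp => ?_⟩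
      have h1 := hn.2 p hp
      have h2 : (((n - x).toNat : ℕ) : ℤ) = n - x := Int.toNat_of_nonneg (by omega)
      simp only [h2]
      have h3 : x + (n - x) = n := by ring
      rw [h3]
      exact h1
    · intro n hn n' hn' h
      rw [mem_coe, hG, mem_filter, mem_Ioc] at hn hn'
      simp only at h
      omega
  have hPG := one_le_PG T
  have hgood : ∑ n ∈ G, ∏ t ∈ T, Lz (n + t) ≤ 2 * A ^ c * (Y * PG T) + W ^ c * √(N : ℝ) := by
    have h1 : ∑ n ∈ G, ∏ t ∈ T, Lz (n + t) ≤ ∑ n ∈ G, W ^ k :=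
      sum_le_sum fun n hn => hprod n (mem_filter.1 hn).1 T (Subset.refl _)
    rw [sum_const, nsmul_eq_mul] at h1
    refine h1.trans ?_
    have h2 := mul_le_mul_of_nonneg_right hcardG (pow_nonneg hW0 k)
    refine h2.trans ?_
    have h3 : (2 * (Y * (Vz y ^ k * PG T)) + √(Y : ℝ)) * W ^ k =
        2 * (W * Vz y) ^ k * (Y * PG T) + W ^ k * √(Y : ℝ) := by
      rw [mul_pow]
      ring
    rw [h3]
    have hWV0 : 0 ≤ W * Vz y := mul_nonneg hW0 (Vz_pos y).le
    have h4 : (W * Vz y) ^ k ≤ A ^ c := (pow_le_pow_left₀ hWV0 hWV k).trans (pow_le_pow_right₀ hA1 hT)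
    have h5 : W ^ k ≤ W ^ c := pow_le_pow_right₀ hW1 hT
    have hYP : 0 ≤ (Y : ℝ) * PG T := by positivity
    apply add_le_add
    · apply mul_le_mul_of_nonneg_right _ hYP
      linarith
    · exact mul_le_mul h5 hYsq (Real.sqrt_nonneg _) (by positivity)
  have hbad : ∀ n ∈ Ioc x (x + Y), n ∉ G → ∏ t ∈ T, Lz (n + t) ≤ W ^ c * ∑ t ∈ T, bad y (n + t) := by
    intro n hn hnG
    have hS0 : 0 ≤ ∑ t ∈ T, bad y (n + t) := sum_nonneg fun t _ => bad_nonneg y _
    rw [hG, mem_filter] at hnG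
    push Not at hnG
    obtain ⟨p, hp, t0, ht0, hpt⟩ := hnG hn
    by_cases h0 : Lz (n + t0) = 0
    · rw [prod_eq_zero ht0 h0]
      positivity
    · have hb : bad y (n + t0) = Lz (n + t0) := by
        unfold bad
        rw [if_neg]
        rintro ⟨h1, h2⟩
        have hpos : 0 < (n + t0).toNat := h1.pos
        have h3 : (((n + t0).toNat : ℕ) : ℤ) = n + t0 := Int.toNat_of_nonneg (by omega)
        rw [← h3] at hpt
        have h4 : p ∣ (n + t0).toNat := by exact_mod_cast hpt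
        have h5 := (Nat.prime_dvd_prime_iff_eq (mem_pz.1 hp).2 h1).1 h4
        have h6 := (mem_pz.1 hp).1
        omega
      rw [← mul_prod_erase T _ ht0, ← hb]
      have h1 := hprod n hn (T.erase t0) (erase_subset _ _)
      have h2 : W ^ (T.erase t0).card ≤ W ^ c :=
        pow_le_pow_right₀ hW1 ((card_le_card (erase_subset _ _)).trans hT)
      have h3 : bad y (n + t0) ≤ ∑ t ∈ T, bad y (n + t) :=
        single_le_sum (f := fun t => bad y (n + t)) (fun t _ => bad_nonneg y _) ht0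
      rw [mul_comm]
      exact mul_le_mul (h1.trans h2) h3 (bad_nonneg _ _) (by positivity)
  have hsplit : ∑ n ∈ Ioc x (x + Y), ∏ t ∈ T, Lz (n + t) ≤
      ∑ n ∈ G, ∏ t ∈ T, Lz (n + t) + ∑ n ∈ Ioc x (x + Y), W ^ c * ∑ t ∈ T, bad y (n + t) := by
    rw [← sum_filter_add_sum_filter_not (Ioc x (x + Y)) (fun n => ∀ p ∈ pz y, ¬ ∃ t ∈ T, (p : ℤ) ∣ n + t)]
    apply add_le_add le_rfl
    have h1 : ∀ n ∈ (Ioc x (x + Y)).filter (fun n => ¬ ∀ p ∈ pz y, ¬ ∃ t ∈ T, (p : ℤ) ∣ n + t),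
        ∏ t ∈ T, Lz (n + t) ≤ W ^ c * ∑ t ∈ T, bad y (n + t) := by
      intro n hn
      rw [mem_filter] at hn
      apply hbad n hn.1
      rw [hG, mem_filter]
      exact fun h => hn.2 h.2
    refine (sum_le_sum h1).trans ?_
    apply sum_le_sum_of_subset_of_nonneg (filter_subset _ _)
    intro n _ _
    exact mul_nonneg (by positivity) (sum_nonneg fun t _ => bad_nonneg y _)
  have hbadsum : ∑ n ∈ Ioc x (x + Y), W ^ c * ∑ t ∈ T, bad y (n + t) ≤
      W ^ c * (c * (6 * √(N : ℝ) * W + 2 * √(N : ℝ))) := by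
    rw [← mul_sum, sum_comm]
    apply mul_le_mul_of_nonneg_left _ (by positivity)
    have h1 : ∀ t ∈ T, ∑ n ∈ Ioc x (x + Y), bad y (n + t) ≤ 6 * √(N : ℝ) * W + 2 * √(N : ℝ) := by
      intro t ht'
      refine (bad_sum y (6 * N) (by omega) (Ioc x (x + Y)) t (fun n hn => hn6 n hn t ht')).trans ?_
      have e1 : √(((6 * N : ℕ) : ℝ)) ≤ 3 * √(N : ℝ) := by
        rw [show (3 : ℝ) * √(N : ℝ) = √(9 * N) by
          rw [Real.sqrt_mul (by norm_num)]
          rw [show (9 : ℝ) = 3 ^ 2 by norm_num, Real.sqrt_sq (by norm_num)]]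
        apply Real.sqrt_le_sqrt
        push_cast
        linarith
      have e2 : Real.log (((6 * N : ℕ) : ℝ)) = W := by
        rw [hW]
        push_cast
        rfl
      rw [e2]
      have e3 : 2 * √(((6 * N : ℕ) : ℝ)) * W ≤ 6 * √(N : ℝ) * W := by
        apply mul_le_mul_of_nonneg_right _ hW0
        linarith
      linarith
    refine (sum_le_sum h1).trans ?_
    rw [sum_const, nsmul_eq_mul]
    apply mul_le_mul_of_nonneg_right _ (by positivity)
    exact_mod_cast hT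
  have hfin : W ^ c * √(N : ℝ) + W ^ c * (c * (6 * √(N : ℝ) * W + 2 * √(N : ℝ))) ≤ Y := by
    have h1 : W ^ c * √(N : ℝ) + W ^ c * (c * (6 * √(N : ℝ) * W + 2 * √(N : ℝ))) ≤
        20 * (c + 1) * W ^ (c + 1) * √(N : ℝ) := by
      have h2 : W ^ c ≤ W ^ (c + 1) := pow_le_pow_right₀ hW1 (by omega)
      have hs : 0 ≤ √(N : ℝ) := Real.sqrt_nonneg _
      have hWs : 0 ≤ W ^ c * √(N : ℝ) := by positivity
      have h3 : W ^ c * √(N : ℝ) ≤ W ^ (c + 1) * √(N : ℝ) := mul_le_mul_of_nonneg_right h2 hs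
      have hc0 : (0 : ℝ) ≤ c := Nat.cast_nonneg _
      have h4 : (c : ℝ) * (W ^ c * √(N : ℝ)) ≤ c * (W ^ (c + 1) * √(N : ℝ)) := mul_le_mul_of_nonneg_left h3 hc0
      have e : W ^ c * √(N : ℝ) + W ^ c * (c * (6 * √(N : ℝ) * W + 2 * √(N : ℝ))) =
          W ^ c * √(N : ℝ) + 6 * (c * (W ^ (c + 1) * √(N : ℝ))) + 2 * (c * (W ^ c * √(N : ℝ))) := by
        rw [pow_succ]; ring
      rw [e]
      have h5 : 0 ≤ (c : ℝ) * (W ^ (c + 1) * √(N : ℝ)) := by positivity
      have h6 : 0 ≤ (W ^ (c + 1) * √(N : ℝ)) := by positivity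
      nlinarith
    refine h1.trans ?_
    have h3 := hN1 N (by omega)
    have h4 : 20 * ((c : ℝ) + 1) * W ^ (c + 1) * √(N : ℝ) ≤ (N : ℝ) ^ (1 / 4 : ℝ) * √(N : ℝ) :=
      mul_le_mul_of_nonneg_right h3 (Real.sqrt_nonneg _)
    refine h4.trans (le_trans (le_of_eq ?_) hYr)
    rw [Real.sqrt_eq_rpow, ← Real.rpow_add hN0]
    norm_num
  calc ∑ n ∈ Ioc x (x + Y), ∏ t ∈ T, Lz (n + t) ≤ _ := hsplit
    _ ≤ 2 * A ^ c * (Y * PG T) + Y := by linarith
    _ ≤ (2 * A ^ c + 1) * Y * PG T := by nlinarith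

end Pool.Agent.Y842.JC
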